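import Pool.Agent.helper12.DD.Spec2

/-!
# Module TRP of project dw: (MP_baa4d7_al): transport along isomorphisms
-/

set_option autoImplicit false

open Pool.Agent.helper49.Blk

namespace Pool.Agent.DD

section

variable {G G' : Type} [Group G] [Group G'] (α : G ≃* G')

theorem TRP_mem (x : G) (P : Subgroup G) : α x ∈ P.map α.toMonoidHom ↔ x ∈ P := by
  rw [Subgroup.mem_map]
  constructor
  · rintro ⟨y, hy, h⟩
    have : y = x := α.injective h
    rwa [← this]
  · intro hx
    exact ⟨x, hx, rfl⟩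

theorem TRP_norm (x : G) (P : Subgroup G) :
    α x ∈ Subgroup.normalizer ((P.map α.toMonoidHom : Subgroup G') : Set G') ↔
      x ∈ Subgroup.normalizer (P : Set G) := by
  rw [Subgroup.mem_normalizer_iff, Subgroup.mem_normalizer_iff]
  constructor
  · intro h y
    have h1 := h (α y)
    rw [← map_mul, ← map_inv, ← map_mul, TRP_mem, TRP_mem] at h1
    exact h1
  · intro h y
    obtain ⟨z, rfl⟩ := α.surjective y
    rw [← map_mul, ← map_inv, ← map_mul, TRP_mem, TRP_mem]
    exact h z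

theorem TRP_normeq (P : Subgroup G) :
    Subgroup.normalizer ((P.map α.toMonoidHom : Subgroup G') : Set G') =
      (Subgroup.normalizer (P : Set G)).map α.toMonoidHom := by
  ext y
  obtain ⟨x, rfl⟩ := α.surjective y
  rw [TRP_norm, TRP_mem]

theorem TRP_NCmem (x : G) (C : List (Subgroup G)) :
    α x ∈ NC (C.map fun P => P.map α.toMonoidHom) ↔ x ∈ NC C := by
  unfold NC
  simp only [Subgroup.mem_iInf, List.mem_map, forall_exists_index, and_imp,
    forall_apply_eq_imp_iff₂]
  constructor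
  · intro h P hP
    exact (TRP_norm α x P).1 (h P hP)
  · intro h P hP
    exact (TRP_norm α x P).2 (h P hP)

theorem TRP_NC (C : List (Subgroup G)) :
    NC (C.map fun P => P.map α.toMonoidHom) = (NC C).map α.toMonoidHom := by
  ext y
  obtain ⟨x, rfl⟩ := α.surjective y
  rw [TRP_NCmem, TRP_mem]

theorem TRP_mapmap (P : Subgroup G) :
    (P.map α.toMonoidHom).map α.symm.toMonoidHom = P := by
  ext x
  have h : x = α.symm (α x) := (α.symm_apply_apply x).symm
  rw [h, TRP_mem, TRP_mem, α.symm_apply_apply]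

theorem TRP_pg (p : ℕ) (P : Subgroup G) (h : IsPGroup p P) :
    IsPGroup p (P.map α.toMonoidHom : Subgroup G') :=
  h.map α.toMonoidHom

theorem TRP_op (p : ℕ) (H P : Subgroup G) (h : IsOp p H P) :
    IsOp p (H.map α.toMonoidHom) (P.map α.toMonoidHom) := by
  obtain ⟨⟨h1, h2, h3⟩, h4⟩ := h
  refine ⟨⟨Subgroup.map_mono h1, TRP_pg α p P h2, ?_⟩, ?_⟩
  · rw [TRP_normeq]
    exact Subgroup.map_mono h3
  · rintro Q ⟨q1, q2, q3⟩
    have e : (Q.map α.symm.toMonoidHom).map α.toMonoidHom = Q := TRP_mapmap α.symm Q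
    have e1 : (H.map α.toMonoidHom).map α.symm.toMonoidHom = H := TRP_mapmap α H
    have hq : Q.map α.symm.toMonoidHom ∈
        {Q : Subgroup G | Q ≤ H ∧ IsPGroup p Q ∧ H ≤ Subgroup.normalizer (Q : Set G)} := by
      refine ⟨?_, TRP_pg α.symm p Q q2, ?_⟩
      · rw [← e1]
        exact Subgroup.map_mono q1
      · rw [TRP_normeq, ← e1]
        exact Subgroup.map_mono q3
    have h5 := h4 hq
    rw [← e]
    exact Subgroup.map_mono h5

theorem TRP_rad1 (p : ℕ) (C : List (Subgroup G)) (h : Radical p C) :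
    Radical p (C.map fun P => P.map α.toMonoidHom) := by
  refine ⟨?_, ?_, ?_, ?_⟩
  · intro h0
    exact h.ne (List.map_eq_nil_iff.1 h0)
  · rw [List.pairwise_map]
    refine h.strict.imp ?_
    intro P Q hPQ
    refine lt_of_le_of_ne (Subgroup.map_mono hPQ.le) ?_
    intro he
    have h1 := congrArg (Subgroup.map α.symm.toMonoidHom) he
    rw [TRP_mapmap, TRP_mapmap] at h1
    exact hPQ.ne h1
  · intro P hP
    rw [List.head?_map] at hP
    obtain ⟨Q, hQ, rfl⟩ := Option.map_eq_some_iff.1 hP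
    have h1 := TRP_op α p ⊤ Q (h.zero Q hQ)
    rwa [Subgroup.map_top_of_surjective α.toMonoidHom α.surjective] at h1
  · intro k hk
    have hk' : k + 1 < C.length := by
      rwa [List.length_map] at hk
    have h1 := TRP_op α p _ _ (h.succ k hk')
    rw [← TRP_NC, ← List.map_take] at *
    simpa using h1

theorem TRP_rad (p : ℕ) (C : List (Subgroup G)) :
    Radical p (C.map fun P => P.map α.toMonoidHom) ↔ Radical p C := by
  constructor
  · intro h
    have h1 := TRP_rad1 α.symm p _ h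
    rw [List.map_map] at h1
    have h2 : ((fun P : Subgroup G' => P.map α.symm.toMonoidHom) ∘
        fun P : Subgroup G => P.map α.toMonoidHom) = id := by
      funext P
      exact TRP_mapmap α P
    rwa [h2, List.map_id] at h1
  · exact TRP_rad1 α p C

/-- the isomorphism of the normalisers -/
def TRP_equiv (N : Subgroup G) (N' : Subgroup G') (hN : ∀ x : G, α x ∈ N' ↔ x ∈ N) :
    N ≃* N' where
  toFun x := ⟨α x, (hN x).2 x.2⟩
  invFun y := ⟨α.symm y, (hN _).1 (by
    rw [α.apply_symm_apply]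
    exact y.2)⟩
  left_inv x := by
    apply Subtype.ext
    show α.symm (α (x : G)) = x
    rw [α.symm_apply_apply]
  right_inv y := by
    apply Subtype.ext
    show α (α.symm (y : G')) = y
    rw [α.apply_symm_apply]
  map_mul' x y := by
    apply Subtype.ext
    show α ((x : G) * y) = α x * α y
    rw [map_mul]

theorem TRP_equiv_coe (N : Subgroup G) (N' : Subgroup G') (hN : ∀ x : G, α x ∈ N' ↔ x ∈ N)
    (x : N) : (TRP_equiv α N N' hN x : G') = α x := rfl

theorem TRP_conj (a b : G) : IsConj (α a) (α b) ↔ IsConj a b := by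
  rw [isConj_iff, isConj_iff]
  constructor
  · rintro ⟨c, hc⟩
    refine ⟨α.symm c, ?_⟩
    apply α.injective
    rw [map_mul, map_mul, map_inv, α.apply_symm_apply]
    exact hc
  · rintro ⟨c, hc⟩
    refine ⟨α c, ?_⟩
    rw [← map_mul, ← map_inv, ← map_mul, hc]

theorem TRP_om (N : Subgroup G) (N' : Subgroup G') (hN : ∀ x : G, α x ∈ N' ↔ x ∈ N)
    (ψ : N' → ℂ) (a : G) :
    omInd N (fun x => ψ (TRP_equiv α N N' hN x)) a = omInd N' ψ (α a) := by
  unfold omInd
  have h1 : (fun x => ψ (TRP_equiv α N N' hN x)) 1 = ψ 1 := congrArg ψ (map_one _)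
  rw [h1]
  congr 1
  apply finsum_mem_eq_of_bijOn (TRP_equiv α N N' hN)
  · have hc : ∀ x : N, IsConj (α a) (TRP_equiv α N N' hN x : G') ↔ IsConj a (x : G) := by
      intro x
      rw [TRP_equiv_coe, TRP_conj]
    refine ⟨?_, (TRP_equiv α N N' hN).injective.injOn, ?_⟩
    · intro x hx
      exact (hc x).2 hx
    · intro y hy
      obtain ⟨x, rfl⟩ := (TRP_equiv α N N' hN).surjective y
      exact ⟨x, (hc x).1 hy, rfl⟩
  · intro x _
    rfl

theorem TRP_omega (χ' : G' → ℂ) (a : G) :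
    omega (fun x => χ' (α x)) a = omega χ' (α a) := by
  have h1 : χ' (α 1) = χ' 1 := by rw [map_one]
  have h2 : Nat.card (conjugatesOf a) = Nat.card (conjugatesOf (α a)) := by
    apply Nat.card_congr
    refine ⟨fun x => ⟨α x.1, ?_⟩, fun y => ⟨α.symm y.1, ?_⟩, ?_, ?_⟩
    · exact (TRP_conj α a x.1).2 x.2
    · refine (TRP_conj α a (α.symm y.1)).1 ?_
      rw [α.apply_symm_apply]
      exact y.2
    · intro x
      apply Subtype.ext
      exact α.symm_apply_apply x.1
    · intro y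
      apply Subtype.ext
      exact α.apply_symm_apply y.1
  unfold omega
  simp only [h1, h2]

variable {E E' : Type} [Group E] [Group E'] (β : E ≃* E')

theorem TRP_fix (ι : G →* E) (ι' : G' →* E') (hαβ : ∀ x, ι' (α x) = β (ι x))
    (N : Subgroup G) (N' : Subgroup G') (hN : ∀ x : G, α x ∈ N' ↔ x ∈ N)
    (S : Set (Subgroup G)) (S' : Set (Subgroup G'))
    (hS : ∀ P, P ∈ S' ↔ ∃ Q ∈ S, P = Q.map α.toMonoidHom) (ψ : N' → ℂ) (e : E) :
    Fixes ι' S' N' ψ (β e) ↔ Fixes ι S N (fun x => ψ (TRP_equiv α N N' hN x)) e := by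
  have key : ∀ x y : G, ι y = e * ι x * e⁻¹ ↔
      ι' (α y) = β e * ι' (α x) * (β e)⁻¹ := by
    intro x y
    rw [hαβ, hαβ, ← map_mul, ← map_inv, ← map_mul, β.injective.eq_iff]
  unfold Fixes
  constructor
  · rintro ⟨h1, h2⟩
    constructor
    · intro P hP x y hxy
      have := h1 _ ((hS _).2 ⟨P, hP, rfl⟩) _ _ ((key x y).1 hxy)
      rwa [TRP_mem, TRP_mem] at this
    · intro x y hxy
      exact h2 _ _ ((key x y).1 hxy)
  · rintro ⟨h1, h2⟩
    constructor
    · intro P hP x y hxy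
      obtain ⟨Q, hQ, rfl⟩ := (hS _).1 hP
      obtain ⟨x', rfl⟩ := α.surjective x
      obtain ⟨y', rfl⟩ := α.surjective y
      have := h1 Q hQ x' y' ((key _ _).2 hxy)
      rw [TRP_mem, TRP_mem]
      exact this
    · intro x y hxy
      obtain ⟨x', rfl⟩ := (TRP_equiv α N N' hN).surjective x
      obtain ⟨y', rfl⟩ := (TRP_equiv α N N' hN).surjective y
      exact h2 x' y' ((key _ _).2 hxy)

theorem TRP_stab (ι : G →* E) (ι' : G' →* E') (hαβ : ∀ x, ι' (α x) = β (ι x))
    (N : Subgroup G) (N' : Subgroup G') (hN : ∀ x : G, α x ∈ N' ↔ x ∈ N)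
    (S : Set (Subgroup G)) (S' : Set (Subgroup G'))
    (hS : ∀ P, P ∈ S' ↔ ∃ Q ∈ S, P = Q.map α.toMonoidHom) (ψ : N' → ℂ) (U : Subgroup E) :
    StabIs ι' S' N' ψ (U.map β.toMonoidHom) ↔
      StabIs ι S N (fun x => ψ (TRP_equiv α N N' hN x)) U := by
  unfold StabIs
  have key : ∀ e : E, ((∃ g : G', Fixes ι' S' N' ψ (β e * ι' g)) ↔
      ∃ g : G, Fixes ι S N (fun x => ψ (TRP_equiv α N N' hN x)) (e * ι g)) := by
    intro e
    constructor
    · rintro ⟨g, hg⟩
      obtain ⟨g', rfl⟩ := α.surjective g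
      refine ⟨g', ?_⟩
      rw [hαβ, ← map_mul] at hg
      exact (TRP_fix α β ι ι' hαβ N N' hN S S' hS ψ _).1 hg
    · rintro ⟨g, hg⟩
      refine ⟨α g, ?_⟩
      rw [hαβ, ← map_mul]
      exact (TRP_fix α β ι ι' hαβ N N' hN S S' hS ψ _).2 hg
  constructor
  · intro h e
    have h1 := h (β e)
    rw [TRP_mem β, key] at h1
    exact h1
  · intro h e
    obtain ⟨e', rfl⟩ := β.surjective e
    rw [TRP_mem β, key]
    exact h e'

end

theorem TRP_gen {G E G' E' : Type} [Group G] [Group E] [Group G'] [Group E'] (ι : G →* E)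
    (ι' : G' →* E') (α : G ≃* G') (β : E ≃* E') (hαβ : ∀ x, ι' (α x) = β (ι x)) (p : ℕ)
    (M : Ideal (integralClosure ℤ ℂ)) (χ' : G' → ℂ)
    (N : Subgroup G) (N' : Subgroup G') (hN : ∀ x : G, α x ∈ N' ↔ x ∈ N)
    (S : Set (Subgroup G)) (S' : Set (Subgroup G'))
    (hS : ∀ P, P ∈ S' ↔ ∃ Q ∈ S, P = Q.map α.toMonoidHom) (d : ℕ) (U : Subgroup E) :
    (kset p M ι' χ' N' S' d (U.map β.toMonoidHom)).ncard =
      (kset p M ι (fun x => χ' (α x)) N S d U).ncard := by
  have key : ∀ ψ : N' → ℂ, ψ ∈ kset p M ι' χ' N' S' d (U.map β.toMonoidHom) ↔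
      (fun x => ψ (TRP_equiv α N N' hN x)) ∈ kset p M ι (fun x => χ' (α x)) N S d U := by
    intro ψ
    refine and_congr (TRI _ _ (TRP_equiv α N N' hN) ψ) (and_congr ?_ (and_congr ?_
      (TRP_stab α β ι ι' hαβ N N' hN S S' hS ψ U)))
    · unfold Defc
      have h1 : (fun x => ψ (TRP_equiv α N N' hN x)) 1 = ψ 1 := congrArg ψ (map_one _)
      rw [h1, Nat.card_congr (TRP_equiv α N N' hN).toEquiv]
    · unfold Induces
      constructor
      · intro h g
        have h1 := h (α g)
        rw [← TRP_om α N N' hN, ← TRP_omega] at h1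
        exact h1
      · intro h g
        obtain ⟨g', rfl⟩ := α.surjective g
        rw [← TRP_om α N N' hN, ← TRP_omega]
        exact h g'
  apply Set.ncard_congr (fun ψ _ => fun x => ψ (TRP_equiv α N N' hN x))
  · intro ψ hψ
    exact (key ψ).1 hψ
  · intro ψ ψ' _ _ h
    ext y
    obtain ⟨x, rfl⟩ := (TRP_equiv α N N' hN).surjective y
    exact congrFun h x
  · intro ψ hψ
    have h1 : (fun x => (fun y => ψ ((TRP_equiv α N N' hN).symm y)) (TRP_equiv α N N' hN x)) =
        ψ := by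
      ext x
      exact congrArg ψ ((TRP_equiv α N N' hN).symm_apply_apply x)
    refine ⟨fun y => ψ ((TRP_equiv α N N' hN).symm y), ?_, h1⟩
    rw [key, h1]
    exact hψ

theorem TRP_kC {G E G' E' : Type} [Group G] [Group E] [Group G'] [Group E'] (ι : G →* E)
    (ι' : G' →* E') (α : G ≃* G') (β : E ≃* E') (hαβ : ∀ x, ι' (α x) = β (ι x)) (p : ℕ)
    (M : Ideal (integralClosure ℤ ℂ)) (χ' : G' → ℂ) (C : List (Subgroup G)) (d : ℕ)
    (U : Subgroup E) :
    kC p M ι' χ' (C.map fun P => P.map α.toMonoidHom) d (U.map β.toMonoidHom) =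
      kC p M ι (fun x => χ' (α x)) C d U := by
  unfold kC
  refine TRP_gen ι ι' α β hαβ p M χ' _ _ (fun x => TRP_NCmem α x C) _ _ ?_ d U
  intro P
  constructor
  · intro hP
    obtain ⟨Q, hQ, rfl⟩ := List.mem_map.1 hP
    exact ⟨Q, hQ, rfl⟩
  · rintro ⟨Q, hQ, rfl⟩
    exact List.mem_map.2 ⟨Q, hQ, rfl⟩

theorem TRP_bij {G G' : Type} [Group G] [Group G'] (α : G ≃* G') (p : ℕ) :
    Set.BijOn (fun C : List (Subgroup G) => C.map fun P => P.map α.toMonoidHom)
      {C | Radical p C} {C | Radical p C} := by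
  refine ⟨?_, ?_, ?_⟩
  · intro C hC
    exact (TRP_rad α p C).2 hC
  · intro C _ C' _ h
    have h1 := congrArg (List.map (Subgroup.map α.symm.toMonoidHom)) h
    simp only [List.map_map] at h1
    have h2 : ((Subgroup.map α.symm.toMonoidHom) ∘
        fun P : Subgroup G => P.map α.toMonoidHom) = id := by
      funext P
      exact TRP_mapmap α P
    rwa [h2, List.map_id, List.map_id] at h1
  · intro C hC
    have hr : (C.map fun P => P.map α.symm.toMonoidHom) ∈
        {C : List (Subgroup G) | Radical p C} := (TRP_rad α.symm p C).2 hC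
    refine ⟨_, hr, ?_⟩
    show List.map (fun P => Subgroup.map α.toMonoidHom P)
      (C.map fun P => P.map α.symm.toMonoidHom) = C
    rw [List.map_map]
    have h2 : ((fun P => Subgroup.map α.toMonoidHom P) ∘
        fun P : Subgroup G' => P.map α.symm.toMonoidHom) = id := by
      funext P
      exact TRP_mapmap α.symm P
    rw [h2, List.map_id]

theorem TRP : TRP_stmt := by
  intro G E G' E' _ _ _ _ ι ι' α β hαβ p M χ' d U
  unfold altQ
  symm
  apply finsum_mem_eq_of_bijOn _ (TRP_bij α p)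
  intro C _
  have hN := fun x => TRP_NCmem α x C
  have hcard : Nat.card (NC C) = Nat.card (NC (C.map fun P => P.map α.toMonoidHom)) :=
    Nat.card_congr (TRP_equiv α _ _ hN).toEquiv
  have hcG : Nat.card G = Nat.card G' := Nat.card_congr α.toEquiv
  rw [TRP_kC ι ι' α β hαβ p M χ' C d U, hcard, hcG, List.length_map]

end Pool.Agent.DD
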